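import Pool.Agent.helper92.TSN.Spec
import Pool.Agent.helper74.TSL.HI2

/-! # Row tsn:SYS (MP_e961e9_lc): the histories of all tours with the exchange property -/

set_option autoImplicit false

namespace Pool.Agent.TSPN

open Finset Pool.Agent.TSPDP Pool.Agent.TSPL

theorem SYS_exch {m : ℕ} (σ σ' σ'' : Equiv.Perm (Fin m)) (b b' : Finset (Edge m))
    (hb' : b' ⊆ tset σ') (hP : HI_pull σ b = HI_pull σ' b')
    (hU : tset σ'' = (tset σ \ b) ∪ b') :
    (∀ x ∈ HI_pull σ b, σ'' x = σ' x) ∧ (∀ x ∉ HI_pull σ b, σ'' x = σ x) := by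
  constructor
  · intro x hx
    have h1 : HI_phi σ'' x ∈ (tset σ \ b) ∪ b' := hU ▸ HI_phi_mem σ'' x
    rcases mem_union.1 h1 with h2 | h2
    · exfalso
      obtain ⟨h3, h4⟩ := mem_sdiff.1 h2
      obtain ⟨k, hk⟩ := (HI_mem_tset σ _).1 h3
      have hkx : k = x := HI_fst hk
      subst hkx
      rw [← hk] at h4
      exact h4 ((HI_mem_pull σ b _).1 hx)
    · obtain ⟨k, hk⟩ := (HI_mem_tset σ' _).1 (hb' h2)
      have hkx : k = x := HI_fst hk
      subst hkx
      exact (HI_snd hk).symm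
  · intro x hx
    have h1 : HI_phi σ'' x ∈ (tset σ \ b) ∪ b' := hU ▸ HI_phi_mem σ'' x
    rcases mem_union.1 h1 with h2 | h2
    · obtain ⟨h3, _⟩ := mem_sdiff.1 h2
      obtain ⟨k, hk⟩ := (HI_mem_tset σ _).1 h3
      have hkx : k = x := HI_fst hk
      subst hkx
      exact (HI_snd hk).symm
    · exfalso
      obtain ⟨k, hk⟩ := (HI_mem_tset σ' _).1 (hb' h2)
      have hkx : k = x := HI_fst hk
      subst hkx
      apply hx
      rw [hP, HI_mem_pull, hk]
      exact h2

theorem SYS (hTRI : TRI_stmt) (hCO : CO_stmt) : SYS_stmt := by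
  intro m S p out hG
  obtain ⟨tg, s1, s2, hB0⟩ := hTRI S (Edge m) p out _ m hG
  have hex : ∀ σ : Equiv.Perm (Fin m), σ ∈ TP m →
      ∃ B : ℕ → Fin S → Finset (Edge m), (∀ r, B 0 r = ∅) ∧
        B p.length = Function.update (fun _ => ∅) out (tset σ) ∧
        (∀ τ ≤ p.length, TInv p out (tset σ) τ (B τ)) ∧
        (∀ τ < p.length, StepI (tg τ) (s1 τ) (s2 τ) (B τ) (B (τ + 1))) := by
    intro σ hσ
    exact hB0 (tset σ) (mem_image_of_mem _ hσ)
  choose! B hB using hex
  refine ⟨tg, s1, s2, fun σ τ r => HI_pull σ (B σ (min τ p.length) r), ?_, ?_⟩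
  · intro σ hσ
    obtain ⟨h0, hT, hI, hS⟩ := hB σ hσ
    refine ⟨fun r => ?_, fun τ hτ => ⟨out, ?_⟩, fun τ => ?_⟩
    · show HI_pull σ (B σ (min 0 p.length) r) = ∅
      rw [Nat.zero_min, h0 r]
      ext i
      rw [HI_mem_pull]
      simp
    · show HI_pull σ (B σ (min τ p.length) out) = univ
      rw [min_eq_right hτ, hT, Function.update_self]
      ext i
      rw [HI_mem_pull]
      simp only [mem_univ, iff_true]
      exact HI_phi_mem σ i
    · rcases Nat.lt_or_ge τ p.length with hτ | hτ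
      · have e1 : min τ p.length = τ := min_eq_left hτ.le
        have e2 : min (τ + 1) p.length = τ + 1 := min_eq_left hτ
        simp only [e1, e2]
        exact HI2_step σ _ _ _ (B σ τ) (B σ (τ + 1)) (hI τ hτ.le).sub (hI (τ + 1) hτ).sub (hS τ hτ)
      · have e1 : min τ p.length = p.length := min_eq_right hτ
        have e2 : min (τ + 1) p.length = p.length := min_eq_right (by omega)
        simp only [e1, e2]
        exact HI2_const _ _ _ _
  · intro σ hσ σ' hσ' τ r hr hr'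
    obtain ⟨_, _, hI, _⟩ := hB σ hσ
    obtain ⟨_, _, hI', _⟩ := hB σ' hσ'
    have hτ : min τ p.length ≤ p.length := min_le_right _ _
    obtain ⟨hd, hF⟩ := hCO S (Edge m) p out _ m hG (tset σ) (mem_image_of_mem _ hσ)
      (tset σ') (mem_image_of_mem _ hσ') _ hτ (B σ (min τ p.length)) (B σ' (min τ p.length)) (hI _ hτ) (hI' _ hτ) r
      (HI_nonempty_of_pull σ _ hr) (HI_nonempty_of_pull σ' _ hr')
    obtain ⟨σ'', hσ'', hU⟩ := mem_image.1 hF
    have hP := (HI_coh σ σ' σ'' _ _ ((hI _ hτ).sub r) ((hI' _ hτ).sub r) hd hU).1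
    exact ⟨hP, σ'', hσ'', SYS_exch σ σ' σ'' _ _ ((hI' _ hτ).sub r) hP hU⟩

end Pool.Agent.TSPN
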